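import Pool.Agent.H614.BF.Main

/-!
# Base points of the pluricanonical systems of images

Let `V` be a projective variety of dimension `n` in projective space, with hyperplane class `H`, for
instance smooth, and `f : V ⇢ W` a dominant rational map of degree at most `m + 1` onto a projective
variety `W`; nothing else is assumed about `f` or `W`. Let `r ≥ 1`.

The theorem: if `K_V + (r - 1) f^* K_W - m H` is globally generated (for `r = 1` this says that
`K_V - m H` is globally generated), then `r K_W` is generated by its global sections at all points `p`
of `W` at which `r K_W` is invertible and such that `f` is defined at all points of `V` over `p`, that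
is, at the points `q` with `(q, p)` in the closure of the graph. It is a statement about each single
point `p`: the system `K_V + (r - 1) f^* K_W - m H` need only be generated at the points `q` over `p`.

For instance, if `f` is a morphism and `W` is a minimal variety such that `r K_W` is Cartier, then
`r K_W` is base point free, whatever the Kodaira dimension of `W` is. If `V` is smooth and `f` is only a
rational map, then the points `p` which are excluded lie on the image of the exceptional locus of a
resolution of `f`; they are on rational curves of `W`, so that `|r K_W|` is base point free if `W`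
contains no rational curve. (These remarks are not part of the Lean statement.) The degree is optimal
for all `n`: if `C` is a plane curve of degree `m + 3`, then `K_C = m H`, and the projection of `C` from
one of its points has degree `m + 2`; the variety `V = C × B`, with suitable `B`, is mapped onto
`W = ℙ¹ × B` with this degree.

Proof. The traces to `W` of the products `A(x) ω`, where `A` is a form of degree `m` and `ω` a section of
`K_V + (r - 1) f^* K_W - m H`, are sections of `r K_W`. Let `O` be a valuation ring of `ℂ(W)` which
dominates the local ring of `p`. There is a linear form `ℓ` such that the `ξ_j = x_j / ℓ` are integral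
over `O`. The algebra `C = O[ξ]` is generated as a module by the monomials in `ξ` of degree `m`, since
the dimensions of the spaces of polynomials of degree `≤ j` in `ξ` modulo the maximal ideal of `O`
increase strictly until they are stationary (`Pool/Agent/H614/BF/Filt.lean`). At the maximal ideals of
`C`, which lie over points `q` as above, the pull-back of a generator `η` of `r K_W` at `p` is generated
by the sections `ω`. So `f^* η` is an `O`-linear combination of products `A(x) ω`. Its trace is `deg f`
times `η`; so the trace of one of these products does not vanish at `p`.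

The function-field language of the starting repository is used: `K` and `L` are the function fields of
`V` and `W`. An `r`-canonical form (`IsPluri r`) on a variety of dimension `n` is a function of `n`
rational vector fields; it is regular at the prime divisor `P` (`Place`, `Divisorial`, `RegAt`) if its
value on vector fields which are regular at `P` (`DerReg`) is regular at `P`. The order along `P` is
`P.ord`, and `Over Q P e` says that `Q` lies over `P` with ramification index `e`.
-/

set_option autoImplicit false
set_option linter.overlappingInstances false

open FF Pool.Agent.W602.GT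

namespace Pool.Agent.Results.MP_5ff3c6_ag.BasePointsOfImages

section

variable {K : Type} [Field K] [Algebra ℂ K] {n N : ℕ}

/-- `q` is a point, with homogeneous coordinates in an extension `κ` of `ℂ`, of the projective variety
with generic point `x`: all homogeneous equations of `x` hold for `q`. -/
def IsPoint {ι : Type} (x : ι → K) {κ : Type} [Field κ] [Algebra ℂ κ] (q : ι → κ) : Prop :=
  q ≠ 0 ∧ ∀ (e : ℕ) (F : MvPolynomial ι ℂ), F.IsHomogeneous e →
    MvPolynomial.aeval x F = 0 → MvPolynomial.aeval q F = 0

/-- The point `q` lies on the closure of the centre of `P` on the projective variety with generic point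
`x`: a form `B` which does not vanish at `q` does not vanish at this centre, that is, its order at `P`
is `deg B` times the minimum of the orders of the coordinates. -/
def Through (P : Place ℂ K) (x : Fin N → K) {κ : Type} [Field κ] [Algebra ℂ κ]
    (q : Fin N → κ) : Prop :=
  ∀ (e : ℕ) (B : MvPolynomial (Fin N) ℂ), B.IsHomogeneous e → MvPolynomial.aeval q B ≠ 0 →
    ∀ i, x i ≠ 0 → P.ord (MvPolynomial.aeval x B) ≤ e * P.ord (x i)

/-- `θ` is a section of `r K_W` in a neighbourhood of the point `p` of `W`, the projective variety with
generic point `y`: an `r`-canonical form which is regular at all prime divisors over `W` through `p`.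
(If `W` has canonical singularities then these are the sections of the sheaf `𝒪(r K_W)` near `p`.) -/
def PluriAt (r : ℕ) (y : Fin N → K) {κ : Type} [Field κ] [Algebra ℂ κ] (p : Fin N → κ)
    (θ : (Fin n → Derivation ℂ K K) → K) : Prop :=
  IsPluri r θ ∧ ∀ P : Place ℂ K, Divisorial n P → Through P y p → RegAt P θ

/-- `η` generates `r K_W` at `p`: it is a section near `p`, and all sections near `p` are
`(A(y) / B(y)) η` with forms `A` and `B` of the same degree, `B(p) ≠ 0`. -/
def PluriGen (r : ℕ) (y : Fin N → K) {κ : Type} [Field κ] [Algebra ℂ κ] (p : Fin N → κ)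
    (η : (Fin n → Derivation ℂ K K) → K) : Prop :=
  PluriAt r y p η ∧ (∃ D, η D ≠ 0) ∧ ∀ θ : (Fin n → Derivation ℂ K K) → K, PluriAt r y p θ →
    ∃ (e : ℕ) (A B : MvPolynomial (Fin N) ℂ), A.IsHomogeneous e ∧ B.IsHomogeneous e ∧
      MvPolynomial.aeval p B ≠ 0 ∧
      ∀ D, MvPolynomial.aeval y B * θ D = MvPolynomial.aeval y A * η D

end

section

variable (L : Type) [Field L] [Algebra ℂ L] {K : Type} [Field K] [Algebra ℂ K] [Algebra L K]
  {n N : ℕ}

/-- The `r`-canonical form `Ω` on `V` is at the prime divisor `Q` a section of
`K_V + (r - 1) f^* K_W`, that is, it is regular and vanishes at least `(r - 1) (e - 1)` times along `Q`,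
where `e` is the ramification index. For `r = 1` it is a regular canonical form. -/
def AdjAt (r : ℕ) (Q : Place ℂ K) (Ω : (Fin n → Derivation ℂ K K) → K) : Prop :=
  ∀ (P : Place ℂ L) (e : ℕ), Over Q P e → ∀ D : Fin n → Derivation ℂ K K,
    (∀ i, DerReg Q (D i)) → Ω D = 0 ∨ ((r : ℤ) - 1) * ((e : ℤ) - 1) ≤ Q.ord (Ω D)

/-- `ω` is a global section of `K_V + (r - 1) f^* K_W - m H`: the products `A(x) ω` are sections of
`K_V + (r - 1) f^* K_W` for all monomials (hence for all forms) `A` of degree `m`. -/
def AdjSection (r m : ℕ) (x : Fin N → K) (ω : (Fin n → Derivation ℂ K K) → K) : Prop :=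
  IsPluri r ω ∧ ∀ (f : Fin m → Fin N) (Q : Place ℂ K), Divisorial n Q →
    AdjAt L r Q (fun D => (∏ k, x (f k)) * ω D)

/-- `K_V + (r - 1) f^* K_W - m H` is generated by its global sections at the point `q` of `V`: each form
`Ω` which is a section of `K_V + (r - 1) f^* K_W` near `q` is a sum `∑ (A i)(x) / B(x) ω i` with global
sections `ω i` and forms `B`, `A i` of degrees `e`, `e + m`, `B(q) ≠ 0`. -/
def AdjGenerated (n r m : ℕ) (x : Fin N → K) {κ : Type} [Field κ] [Algebra ℂ κ]
    (q : Fin N → κ) : Prop :=
  ∀ Ω : (Fin n → Derivation ℂ K K) → K, IsPluri r Ω →
    (∀ Q : Place ℂ K, Divisorial n Q → Through Q x q → AdjAt L r Q Ω) →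
    ∃ (e s : ℕ) (B : MvPolynomial (Fin N) ℂ) (A : Fin s → MvPolynomial (Fin N) ℂ)
      (ω : Fin s → (Fin n → Derivation ℂ K K) → K),
      B.IsHomogeneous e ∧ MvPolynomial.aeval q B ≠ 0 ∧ (∀ i, (A i).IsHomogeneous (e + m)) ∧
      (∀ i, AdjSection L r m x (ω i)) ∧
      ∀ D, MvPolynomial.aeval x B * Ω D = ∑ i, MvPolynomial.aeval x (A i) * ω i D

end

section

variable {K L : Type} [Field K] [Algebra ℂ K] [Field L] [Algebra ℂ L] [Algebra L K] {N M : ℕ}

/-- The rational map `V ⇢ W`, given by the generic points `x` and `y`, is defined at the point `q` of
`V`: it is given by forms `F j` of the same degree which do not all vanish at `q`. -/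
def Defined (x : Fin N → K) (y : Fin M → L) {κ : Type} [Field κ] [Algebra ℂ κ]
    (q : Fin N → κ) : Prop :=
  ∃ (e : ℕ) (F : Fin M → MvPolynomial (Fin N) ℂ), (∀ j, (F j).IsHomogeneous e) ∧
    (∀ j k, algebraMap L K (y j) * MvPolynomial.aeval x (F k) =
      algebraMap L K (y k) * MvPolynomial.aeval x (F j)) ∧
    ∃ j, MvPolynomial.aeval q (F j) ≠ 0

/-- `(q, p)` is a point of the closure of the graph of `V ⇢ W`, in the Segre embedding. -/
def InGraph (x : Fin N → K) (y : Fin M → L) {κ : Type} [Field κ] [Algebra ℂ κ]
    (q : Fin N → κ) (p : Fin M → ℂ) : Prop :=
  IsPoint (fun ij : Fin N × Fin M => x ij.1 * algebraMap L K (y ij.2))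
    (fun ij : Fin N × Fin M => q ij.1 * algebraMap ℂ κ (p ij.2))

end

/-- **Base points of the pluricanonical systems of images.** Let `V` and `W` be projective varieties of
dimension `n` with generic points `x` and `y` and function fields `K` and `L`, and `f : V ⇢ W` a dominant
rational map of degree `[K : L] ≤ m + 1`. Let `p` be a point of `W` at which `r K_W` is invertible, and
suppose that at all points `q` of `V` over `p` the map `f` is defined and `K_V + (r - 1) f^* K_W - m H` is
generated by global sections. Then some global section `θ` of `r K_W` does not vanish at `p`. -/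
theorem result {n m r N M : ℕ} {K : Type} [Field K] [Algebra ℂ K] [Algebra.EssFiniteType ℂ K]
    (hK : Algebra.trdeg ℂ K = n) {x : Fin N → K} (hx : x ≠ 0)
    (L : Type) [Field L] [Algebra ℂ L] [Algebra L K] [IsScalarTower ℂ L K]
    [FiniteDimensional L K] {y : Fin M → L} (degree : Module.finrank L K ≤ m + 1)
    {p : Fin M → ℂ} (hp : IsPoint y p)
    (invertible : ∃ η : (Fin n → Derivation ℂ L L) → L, PluriGen r y p η)
    (fibre : ∀ (κ : Type) [Field κ] [Algebra ℂ κ] (q : Fin N → κ), InGraph x y q p →
      Defined x y q ∧ AdjGenerated L n r m x q) :
    ∃ θ : (Fin n → Derivation ℂ L L) → L, IsPluri r θ ∧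
      (∀ P : Place ℂ L, Divisorial n P → RegAt P θ) ∧ PluriGen r y p θ := by
  obtain ⟨η, hη⟩ := invertible
  exact Pool.Agent.H614.BF.main hK hx degree hp hη fibre

end Pool.Agent.Results.MP_5ff3c6_ag.BasePointsOfImages
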